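import Pool.Agent.Helper95_PSC.Stmts

set_option autoImplicit false

namespace Pool.Agent.PSC.H11

open Finset Pool.Agent.PSC

/-- The wedge with u. -/
noncomputable def wd {m : ℕ} (x : Fin (m + 1) → R m) (i j : Fin (m + 1)) : R m := x i * uv j - x j * uv i

/-- A face as a vector over the group ring. -/
noncomputable def fv {m : ℕ} (F : Face m) (i : Fin (m + 1)) : R m :=
  if i = F.2 then AddMonoidAlgebra.single F.1 1 else 0

variable {m : ℕ}

theorem ht_add (l : Fin (m + 1) → ℝ) (v w : Lat m) : ht l (v + w) = ht l v + ht l w := by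
  unfold ht
  rw [← Finset.sum_add_distrib]
  refine Finset.sum_congr rfl (fun i _ => ?_)
  simp only [Pi.add_apply]
  push_cast
  ring

theorem ht_zero (l : Fin (m + 1) → ℝ) : ht l (0 : Lat m) = 0 := by
  unfold ht
  simp

theorem ht_neg (l : Fin (m + 1) → ℝ) (v : Lat m) : ht l (-v) = - ht l v := by
  have h := ht_add l v (-v)
  rw [add_neg_cancel, ht_zero] at h
  linarith

theorem ht_sub (l : Fin (m + 1) → ℝ) (v w : Lat m) : ht l (v - w) = ht l v - ht l w := by
  rw [sub_eq_add_neg, ht_add, ht_neg, sub_eq_add_neg]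

theorem ht_ev (l : Fin (m + 1) → ℝ) (a : Fin (m + 1)) : ht l (ee a) = l a := by
  unfold ht ee
  rw [Finset.sum_eq_single a]
  · simp
  · intro b _ hb
    simp [Pi.single_eq_of_ne hb]
  · intro h
    exact absurd (Finset.mem_univ a) h

theorem coeff_mul_uv (x : R m) (a : Fin (m + 1)) (w : Lat m) :
    (x * uv a).coeff w = x.coeff (w + ee a) - x.coeff w := by
  unfold uv mon
  rw [mul_sub, mul_one]
  have h : (x * AddMonoidAlgebra.single (-(ee a)) 1).coeff w = x.coeff (w + ee a) * 1 := by
    refine AddMonoidAlgebra.coeff_mul_single_eq_coeff_mul _ ?_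
    intro m _
    constructor
    · intro h
      rw [← h]
      abel
    · intro h
      rw [h]
      abel
  rw [AddMonoidAlgebra.coeff_sub, Finsupp.sub_apply, h, mul_one]

theorem coeff_wd (x : Fin (m + 1) → R m) (i j : Fin (m + 1)) (w : Lat m) :
    (wd x i j).coeff w = ((x i).coeff (w + ee j) - (x i).coeff w)
      - ((x j).coeff (w + ee i) - (x j).coeff w) := by
  unfold wd
  rw [AddMonoidAlgebra.coeff_sub, Finsupp.sub_apply, coeff_mul_uv, coeff_mul_uv]

theorem coeff_fv (F : Face m) (i : Fin (m + 1)) (v : Lat m) :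
    (fv F i).coeff v = if (v, i) = F then 1 else 0 := by
  unfold fv
  by_cases h : i = F.2
  · rw [if_pos h]
    by_cases h2 : v = F.1
    · have : (v, i) = F := Prod.ext h2 h
      rw [if_pos this, h2]
      simp
    · have : (v, i) ≠ F := fun hh => h2 (by rw [← hh])
      rw [if_neg this]
      simp only [AddMonoidAlgebra.coeff_single]
      exact Finsupp.single_eq_of_ne h2
  · have : (v, i) ≠ F := fun hh => h (by rw [← hh])
    rw [if_neg h, if_neg this]
    simp

theorem wd_sum {ι : Type*} (s : Finset ι) (x : ι → Fin (m + 1) → R m) (i j : Fin (m + 1)) :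
    wd (fun k => ∑ m ∈ s, x m k) i j = ∑ m ∈ s, wd (x m) i j := by
  unfold wd
  rw [Finset.sum_mul, Finset.sum_mul, ← Finset.sum_sub_distrib]

theorem wd_mul (r : R m) (x : Fin (m + 1) → R m) (i j : Fin (m + 1)) :
    wd (fun k => r * x k) i j = r * wd x i j := by
  unfold wd
  ring

theorem wd_smul (r : ℚ) (x : Fin (m + 1) → R m) (i j : Fin (m + 1)) :
    wd (fun k => r • x k) i j = r • wd x i j := by
  unfold wd
  rw [smul_mul_assoc, smul_mul_assoc, smul_sub]




/-- The sum of z along a lattice path. -/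
def ps (z : Face m → ℚ) : List (Fin (m + 1)) → Lat m → ℚ
  | [], _ => 0
  | a :: L, p => z (p, a) + ps z L (p + ee a)

/-- The square at p is closed for z. -/
def Sq (z : Face m → ℚ) (p : Lat m) (i j : Fin (m + 1)) : Prop :=
  z (p, i) + z (p + ee i, j) = z (p, j) + z (p + ee j, i)

/-- The displacement of a path. -/
def tot (L : List (Fin (m + 1))) : Lat m := fun i => (L.count i : ℤ)

theorem tot_nil : tot ([] : List (Fin (m + 1))) = 0 := by
  funext i
  simp [tot]

theorem tot_cons (a : Fin (m + 1)) (L : List (Fin (m + 1))) : tot (a :: L) = ee a + tot L := by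
  funext i
  simp only [tot, Pi.add_apply, ee]
  by_cases h : a = i
  · subst h
    rw [List.count_cons_self]
    simp
    ring
  · rw [List.count_cons_of_ne h]
    rw [Pi.single_eq_of_ne (fun hh => h hh.symm)]
    simp

theorem tot_append (L L' : List (Fin (m + 1))) : tot (L ++ L') = tot L + tot L' := by
  funext i
  simp [tot]

theorem tot_nonneg (L : List (Fin (m + 1))) (i : Fin (m + 1)) : 0 ≤ tot L i := by
  simp [tot]

theorem tot_perm {L L' : List (Fin (m + 1))} (h : L.Perm L') : tot L = tot L' := by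
  funext i
  simp only [tot]
  rw [h.count_eq]

theorem perm_of_tot {L L' : List (Fin (m + 1))} (h : tot L = tot L') : L.Perm L' := by
  rw [List.perm_iff_count]
  intro a
  have := congrFun h a
  simp only [tot] at this
  exact_mod_cast this

theorem exists_tot (v : Lat m) (hv : ∀ i, 0 ≤ v i) : ∃ L : List (Fin (m + 1)), tot L = v := by
  classical
  obtain ⟨m, hm⟩ : ∃ m : Multiset (Fin (m + 1)), ∀ i, (m.count i : ℤ) = v i := by
    refine ⟨∑ i, (v i).toNat • {i}, fun i => ?_⟩
    rw [Multiset.count_sum']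
    simp only [Multiset.count_nsmul, Multiset.count_singleton]
    rw [Finset.sum_eq_single i]
    · simp [Int.toNat_of_nonneg (hv i)]
    · intro b _ hb
      rw [if_neg (fun h => hb h.symm)]
      simp
    · intro h
      exact absurd (Finset.mem_univ i) h
  refine ⟨m.toList, ?_⟩
  funext i
  simp only [tot]
  rw [← hm i]
  congr 1
  rw [← Multiset.coe_count, Multiset.coe_toList]

theorem ps_append (z : Face m → ℚ) (L L' : List (Fin (m + 1))) (p : Lat m) :
    ps z (L ++ L') p = ps z L p + ps z L' (p + tot L) := by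
  induction L generalizing p with
  | nil => simp [ps, tot_nil]
  | cons a L ih =>
    simp only [List.cons_append, ps]
    rw [ih, tot_cons, add_assoc, add_assoc]

theorem ps_perm (z : Face m → ℚ) {L L' : List (Fin (m + 1))} (h : L.Perm L') :
    ∀ p : Lat m, (∀ p' : Lat m, (∀ s, p s ≤ p' s) → (∀ s, p' s ≤ p s + tot L s) →
      ∀ i j, Sq z p' i j) → ps z L p = ps z L' p := by
  induction h with
  | nil => intro p _; rfl
  | @cons a L1 L2 h12 ih =>
    intro p hp
    simp only [ps]
    rw [ih (p + ee a) ?_]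
    intro p' h1 h2
    refine hp p' (fun s => ?_) (fun s => ?_)
    · have := h1 s
      simp only [Pi.add_apply, ee] at this
      by_cases hs : s = a
      · subst hs
        simp at this
        omega
      · rw [Pi.single_eq_of_ne hs] at this
        omega
    · have := h2 s
      rw [tot_cons]
      simp only [Pi.add_apply] at this ⊢
      omega
  | swap a b L =>
    intro p hp
    have h := hp p (fun s => le_refl _) (fun s => by
      have := tot_nonneg (b :: a :: L) s
      omega) b a
    simp only [ps]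
    unfold Sq at h
    have e : p + ee b + ee a = p + ee a + ee b := by abel
    rw [e]
    linarith
  | @trans L1 L2 L3 h12 _ ih1 ih2 =>
    intro p hp
    rw [ih1 p hp]
    refine ih2 p ?_
    rw [← tot_perm h12]
    exact hp

theorem ht_mono_tot (l : Fin (m + 1) → ℝ) (hl : ∀ i, 0 < l i) (L : List (Fin (m + 1))) : 0 ≤ ht l (tot L) := by
  unfold ht
  refine Finset.sum_nonneg (fun i _ => mul_nonneg (hl i).le ?_)
  exact_mod_cast tot_nonneg L i

theorem ps_zero_below (l : Fin (m + 1) → ℝ) (hl : ∀ i, 0 < l i) (t : ℝ) (z : Face m → ℚ)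
    (hz : ∀ F, z F ≠ 0 → Alive l t F) (L : List (Fin (m + 1))) :
    ∀ p, ht l (p + tot L) ≤ t → ps z L p = 0 := by
  induction L with
  | nil => intro p _; rfl
  | cons a L ih =>
    intro p hp
    simp only [ps]
    rw [tot_cons, ← add_assoc] at hp
    rw [ih (p + ee a) hp, add_zero]
    by_contra hne
    have h := hz _ hne
    have h2 := ht_mono_tot l hl L
    rw [ht_add, ht_add, ht_ev] at hp
    have := h.2
    simp only at this
    linarith

theorem ps_zero_above (l : Fin (m + 1) → ℝ) (hl : ∀ i, 0 < l i) (t : ℝ) (z : Face m → ℚ)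
    (hz : ∀ F, z F ≠ 0 → Alive l t F) (L : List (Fin (m + 1))) :
    ∀ p, t < ht l p → ps z L p = 0 := by
  induction L with
  | nil => intro p _; rfl
  | cons a L ih =>
    intro p hp
    simp only [ps]
    rw [ih (p + ee a) (by rw [ht_add, ht_ev]; linarith [hl a]), add_zero]
    by_contra hne
    have h := hz _ hne
    have := h.1
    simp only at this
    linarith

/-- The value of a closed cochain supported on the alive faces is the same on any two alive
faces of a box. -/
theorem const_on_box (l : Fin (m + 1) → ℝ) (hl : ∀ i, 0 < l i) (t : ℝ) (z : Face m → ℚ)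
    (hz : ∀ F, z F ≠ 0 → Alive l t F) (p W : Lat m)
    (hsq : ∀ p' : Lat m, (∀ s, p s ≤ p' s) → (∀ s, p' s ≤ W s) → ∀ i j, Sq z p' i j)
    (F F' : Face m) (hF : Alive l t F) (hF' : Alive l t F')
    (h1 : ∀ s, p s ≤ F.1 s) (h2 : ∀ s, F.1 s + ee F.2 s ≤ W s)
    (h1' : ∀ s, p s ≤ F'.1 s) (h2' : ∀ s, F'.1 s + ee F'.2 s ≤ W s) :
    z F = z F' := by
  have key : ∀ G : Face m, Alive l t G → (∀ s, p s ≤ G.1 s) → (∀ s, G.1 s + ee G.2 s ≤ W s) →
      ∃ L : List (Fin (m + 1)), p + tot L = W ∧ ps z L p = z G := by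
    intro G hG g1 g2
    obtain ⟨L1, hL1⟩ := exists_tot (G.1 - p) (fun i => by
      have := g1 i
      simp only [Pi.sub_apply]
      omega)
    obtain ⟨L2, hL2⟩ := exists_tot (W - (G.1 + ee G.2)) (fun i => by
      have := g2 i
      simp only [Pi.sub_apply, Pi.add_apply]
      omega)
    refine ⟨L1 ++ (G.2 :: L2), ?_, ?_⟩
    · rw [tot_append, tot_cons, hL1, hL2]
      abel
    · have e1 : p + tot L1 = G.1 := by rw [hL1]; abel
      rw [ps_append, e1]
      simp only [ps]
      rw [ps_zero_below l hl t z hz L1 p (by rw [e1]; exact hG.1),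
        ps_zero_above l hl t z hz L2 (G.1 + ee G.2) (by rw [ht_add, ht_ev]; exact hG.2)]
      simp
  obtain ⟨L, hL, e⟩ := key F hF h1 h2
  obtain ⟨L', hL', e'⟩ := key F' hF' h1' h2'
  have ht : tot L = tot L' := by
    have := hL.trans hL'.symm
    exact add_left_cancel this
  rw [← e, ← e']
  refine ps_perm z (perm_of_tot ht) p (fun p' g1 g2 => hsq p' g1 (fun s => ?_))
  have := g2 s
  have e3 := congrFun hL s
  simp only [Pi.add_apply] at e3
  omega




theorem ev_le_one (a s : Fin (m + 1)) : ee a s ≤ 1 := by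
  unfold ee
  by_cases h : s = a
  · subst h; simp
  · rw [Pi.single_eq_of_ne h]; norm_num

theorem ev_nonneg (a s : Fin (m + 1)) : 0 ≤ ee a s := by
  unfold ee
  by_cases h : s = a
  · subst h; simp
  · rw [Pi.single_eq_of_ne h]

theorem coeff_ne_of_mul {x y : R m} {w : Lat m} (h : (x * y).coeff w ≠ 0) :
    ∃ v1 v2, x.coeff v1 ≠ 0 ∧ y.coeff v2 ≠ 0 ∧ v1 + v2 = w := by
  classical
  rw [AddMonoidAlgebra.coeff_mul] at h
  unfold Finsupp.sum at h
  obtain ⟨v1, h1, h2⟩ := Finset.exists_ne_zero_of_sum_ne_zero h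
  obtain ⟨v2, h3, h4⟩ := Finset.exists_ne_zero_of_sum_ne_zero h2
  refine ⟨v1, v2, Finsupp.mem_support_iff.1 h1, Finsupp.mem_support_iff.1 h3, ?_⟩
  by_contra hne
  exact h4 (if_neg hne)

theorem wd_fv (F : Face m) (i j : Fin (m + 1)) : wd (fv F) i j = mon F.1 * wdg F.2 i j := by
  unfold wd fv wdg mon
  by_cases h1 : i = F.2
  · by_cases h2 : j = F.2
    · rw [if_pos h1, if_pos h2, if_pos h1.symm, if_pos h2.symm]
      ring
    · rw [if_pos h1, if_neg h2, if_pos h1.symm, if_neg (fun h => h2 h.symm)]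
      ring
  · by_cases h2 : j = F.2
    · rw [if_neg h1, if_pos h2, if_neg (fun h => h1 h.symm), if_pos h2.symm]
      ring
    · rw [if_neg h1, if_neg h2, if_neg (fun h => h1 h.symm), if_neg (fun h => h2 h.symm)]
      ring

/-- The patch contradiction, with a cochain. -/
theorem patch_contradiction (l : Fin (m + 1) → ℝ) (hl : ∀ i, 0 < l i)
    (Cl : Finset (Face m) → Prop)
    (ρc : ℤ) (hdiam : ∀ C, Cl C → ∀ F ∈ C, ∀ F' ∈ C, ∀ s, |F.1 s - F'.1 s| ≤ ρc)
    (hfin : ∀ (t : ℝ) (F : Face m),
      {C : Finset (Face m) | Cl C ∧ AliveS l t C ∧ F ∈ C}.Finite)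
    (hdual : HidProp l Cl)
    (hpatch : ∀ ρ : ℤ, ∃ (t : ℝ) (C0 : Finset (Face m)) (F0 : Face m), Cl C0 ∧ AliveS l t C0 ∧
      F0 ∈ C0 ∧ ∃ z : Face m → ℚ,
      ∀ C, Cl C → AliveS l t C → (∀ F ∈ C, ∀ s, |F.1 s - F0.1 s| ≤ ρ) →
        ∑ F ∈ C, z F = 0 ∧ ∃ F ∈ C, ∃ F' ∈ C, z F ≠ z F') : False := by
  classical
  obtain ⟨q, ρL, L, hq, hL, hid0⟩ := hdual (2 * ∑ i, l i)
  set H : ℝ := 2 * ∑ i, l i with hH
  have hlH : ∀ i j, l i + l j ≤ H := by
    intro i j
    have h1 : l i ≤ ∑ i, l i := Finset.single_le_sum (fun k _ => (hl k).le) (Finset.mem_univ i)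
    have h2 : l j ≤ ∑ i, l i := Finset.single_le_sum (fun k _ => (hl k).le) (Finset.mem_univ j)
    rw [hH]
    linarith
  set ρ : ℤ := |ρL| + |ρc| + 1 with hρ
  obtain ⟨t, C0, F0, hC0, hC0a, hF0C, z, hz⟩ := hpatch ρ
  have hF0 : Alive l t F0 := hC0a F0 hF0C
  -- the finite sets of cliques
  set N : Face m → Finset (Finset (Face m)) := fun F => (hfin t F).toFinset with hNdef
  have hNm : ∀ F C, C ∈ N F ↔ Cl C ∧ AliveS l t C ∧ F ∈ C := by
    intro F C
    rw [hNdef]
    simp only
    rw [Set.Finite.mem_toFinset]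
    rfl
  have hNs : ∀ F, Alive l t F → ∀ i j, (1 - q) * wd (fv F) i j = ∑ C ∈ N F, L C i j := by
    intro F hF i j
    have h := hid0 t F hF (N F) (hNm F) i j
    rw [wd_fv, sub_mul, one_mul]
    rw [sub_eq_iff_eq_add]
    exact h.trans (add_comm (q * (mon F.1 * wdg F.2 i j)) (∑ C ∈ N F, L C i j))
  -- the ball
  set B : Finset (Face m) :=
    ((Fintype.piFinset fun s => Finset.Icc (F0.1 s - ρ) (F0.1 s + ρ)) ×ˢ Finset.univ).filter
      (fun F => Alive l t F) with hB
  have hBm : ∀ F, F ∈ B ↔ (Alive l t F ∧ ∀ s, |F.1 s - F0.1 s| ≤ ρ) := by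
    intro F
    rw [hB, Finset.mem_filter, Finset.mem_product, Fintype.mem_piFinset]
    constructor
    · rintro ⟨⟨h1, _⟩, h2⟩
      refine ⟨h2, fun s => ?_⟩
      have := Finset.mem_Icc.1 (h1 s)
      rw [abs_le]
      constructor <;> linarith [this.1, this.2]
    · rintro ⟨h2, h1⟩
      refine ⟨⟨fun s => ?_, Finset.mem_univ _⟩, h2⟩
      have := abs_le.1 (h1 s)
      rw [Finset.mem_Icc]
      constructor <;> linarith [this.1, this.2]
  -- the truncated cochain
  set zt : Face m → ℚ := fun F => if F ∈ B then z F else 0 with hzt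
  have hzt_alive : ∀ F, zt F ≠ 0 → Alive l t F := by
    intro F hF
    by_contra hne
    apply hF
    rw [hzt]
    simp only
    rw [if_neg]
    intro h
    exact hne ((hBm F).1 h).1
  set Z : Fin (m + 1) → R m := fun i => ∑ F ∈ B, z F • fv F i with hZ
  have hZc : ∀ i v, (Z i).coeff v = zt (v, i) := by
    intro i v
    rw [hZ]
    simp only
    rw [AddMonoidAlgebra.coeff_sum, Finsupp.finsetSum_apply]
    simp only [AddMonoidAlgebra.coeff_smul, Finsupp.smul_apply, coeff_fv, smul_eq_mul]
    rw [hzt]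
    simp only
    by_cases h : (v, i) ∈ B
    · rw [if_pos h, Finset.sum_eq_single (v, i)]
      · simp
      · intro b _ hb
        rw [if_neg (fun hh => hb hh.symm), mul_zero]
      · intro hh
        exact absurd h hh
    · rw [if_neg h]
      refine Finset.sum_eq_zero (fun b hb => ?_)
      rw [if_neg, mul_zero]
      rintro rfl
      exact h hb
  set W : Fin (m + 1) → Fin (m + 1) → R m := fun i j => wd Z i j with hW
  -- the identity
  have hid : ∀ i j, (1 - q) * W i j =
      ∑ C ∈ B.biUnion (fun F => N F), (∑ F ∈ B.filter (fun F => F ∈ C), z F) • L C i j := by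
    intro i j
    have e1 : W i j = ∑ F ∈ B, z F • wd (fv F) i j := by
      rw [hW]
      simp only
      rw [hZ, wd_sum]
      refine Finset.sum_congr rfl (fun F _ => ?_)
      rw [wd_smul]
    have e2 : (1 - q) * W i j = ∑ F ∈ B, ∑ C ∈ N F, z F • L C i j := by
      rw [e1, Finset.mul_sum]
      refine Finset.sum_congr rfl (fun F hF => ?_)
      rw [mul_smul_comm, hNs F ((hBm F).1 hF).1 i j, Finset.smul_sum]
    rw [e2]
    have e3 : ∀ F ∈ B, ∑ C ∈ N F, z F • L C i j =
        ∑ C ∈ B.biUnion (fun F => N F), if F ∈ C then z F • L C i j else 0 := by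
      intro F hF
      rw [← Finset.sum_filter]
      refine Finset.sum_congr ?_ (fun _ _ => rfl)
      ext C
      rw [Finset.mem_filter, Finset.mem_biUnion]
      constructor
      · intro hC
        exact ⟨⟨F, hF, hC⟩, ((hNm F C).1 hC).2.2⟩
      · rintro ⟨⟨G, hG, hC⟩, hFC⟩
        have h := (hNm G C).1 hC
        exact (hNm F C).2 ⟨h.1, h.2.1, hFC⟩
    rw [Finset.sum_congr rfl e3, Finset.sum_comm]
    refine Finset.sum_congr rfl (fun C _ => ?_)
    rw [← Finset.sum_filter, Finset.sum_smul]
  -- vanishing of the right hand side near the centre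
  have hvan : ∀ i j (w : Lat m), (∀ s, |w s - F0.1 s| ≤ |ρc| + 1) →
      ((1 - q) * W i j).coeff w = 0 := by
    intro i j w hw
    rw [hid, AddMonoidAlgebra.coeff_sum, Finsupp.finsetSum_apply]
    refine Finset.sum_eq_zero (fun C hC => ?_)
    rw [AddMonoidAlgebra.coeff_smul, Finsupp.smul_apply, smul_eq_mul]
    by_cases h0 : (L C i j).coeff w = 0
    · rw [h0, mul_zero]
    rw [Finset.mem_biUnion] at hC
    obtain ⟨G, hG, hC⟩ := hC
    have hCG := (hNm G C).1 hC
    have hCt := hCG.1
    have hCa := hCG.2.1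
    have hnear : ∀ F ∈ C, ∀ s, |F.1 s - F0.1 s| ≤ ρ := by
      intro F hF s
      have h1 := hL C hCt i j w (Finsupp.mem_support_iff.2 h0) F hF s
      have h2 := hw s
      have h3 : F.1 s - F0.1 s = (w s - F0.1 s) - (w s - F.1 s) := by ring
      rw [h3]
      refine (abs_sub _ _).trans ?_
      have h4 : ρL ≤ |ρL| := le_abs_self _
      rw [hρ]
      linarith
    have hCB : B.filter (fun F => F ∈ C) = C := by
      ext F
      rw [Finset.mem_filter]
      constructor
      · exact fun h => h.2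
      · intro h
        exact ⟨(hBm F).2 ⟨hCa F h, hnear F h⟩, h⟩
    rw [hCB, (hz C hCt hCa hnear).1, zero_mul]
  -- support of W
  have hsupp : ∀ i j w, (W i j).coeff w ≠ 0 → ht l w ≤ t ∧ t < ht l w + H := by
    intro i j w hne
    have e : (W i j).coeff w = (zt (w + ee j, i) - zt (w, i)) - (zt (w + ee i, j) - zt (w, j)) := by
      rw [hW]
      simp only
      rw [coeff_wd]
      simp only [hZc]
    rw [e] at hne
    have hcase : zt (w + ee j, i) ≠ 0 ∨ zt (w, i) ≠ 0 ∨ zt (w + ee i, j) ≠ 0 ∨ zt (w, j) ≠ 0 := by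
      by_contra hcon
      push Not at hcon
      obtain ⟨h1, h2, h3, h4⟩ := hcon
      rw [h1, h2, h3, h4] at hne
      simp at hne
    rcases hcase with h | h | h | h
    · have := hzt_alive _ h
      obtain ⟨a1, a2⟩ := this
      simp only [ht_add, ht_ev] at a1 a2
      have := hlH i j
      have := hl j
      constructor <;> linarith
    · have := hzt_alive _ h
      obtain ⟨a1, a2⟩ := this
      simp only at a1 a2
      have := hlH i j
      have := hl j
      constructor <;> linarith
    · have := hzt_alive _ h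
      obtain ⟨a1, a2⟩ := this
      simp only [ht_add, ht_ev] at a1 a2
      have := hlH i j
      have := hl i
      constructor <;> linarith
    · have := hzt_alive _ h
      obtain ⟨a1, a2⟩ := this
      simp only at a1 a2
      have := hlH i j
      have := hl i
      constructor <;> linarith
  have hWzero : ∀ i j (w : Lat m), (∀ s, |w s - F0.1 s| ≤ |ρc| + 1) →
      (W i j).coeff w = 0 := by
    intro i j w hw
    by_contra hne
    have h1 := hvan i j w hw
    rw [sub_mul, one_mul, AddMonoidAlgebra.coeff_sub, Finsupp.sub_apply] at h1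
    have h2 : (q * W i j).coeff w ≠ 0 := by
      intro h
      rw [h, sub_zero] at h1
      exact hne h1
    obtain ⟨v1, v2, g1, g2, g3⟩ := coeff_ne_of_mul h2
    have s1 := hsupp i j w hne
    have s2 := hsupp i j v2 g2
    have s3 := hq v1 (Finsupp.mem_support_iff.2 g1)
    rw [← g3, ht_add] at s1
    linarith [s1.2, s2.1]
  have hSq : ∀ w : Lat m, (∀ s, |w s - F0.1 s| ≤ |ρc| + 1) → ∀ i j, Sq zt w i j := by
    intro w hw i j
    have h1 := hWzero i j w hw
    rw [hW] at h1
    simp only at h1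
    rw [coeff_wd] at h1
    simp only [hZc] at h1
    unfold Sq
    linarith
  -- the central clique
  have hcen : ∀ F ∈ C0, ∀ s, |F.1 s - F0.1 s| ≤ |ρc| := fun F hF s =>
    (hdiam C0 hC0 F hF F0 hF0C s).trans (le_abs_self _)
  have hCB : ∀ F ∈ C0, F ∈ B := by
    intro F hF
    refine (hBm F).2 ⟨hC0a F hF, fun s => ?_⟩
    have := hcen F hF s
    have h3 : 0 ≤ |ρL| := abs_nonneg _
    rw [hρ]
    linarith
  obtain ⟨_, F, hF, F', hF', hne⟩ := hz C0 hC0 hC0a (fun F hF => ((hBm F).1 (hCB F hF)).2)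
  apply hne
  have hzF : zt F = z F := if_pos (hCB F hF)
  have hzF' : zt F' = z F' := if_pos (hCB F' hF')
  rw [← hzF, ← hzF']
  refine const_on_box l hl t zt hzt_alive (fun s => F0.1 s - |ρc|) (fun s => F0.1 s + |ρc| + 1)
    ?_ F F' (hC0a F hF) (hC0a F' hF') ?_ ?_ ?_ ?_
  · intro p' h1 h2
    refine hSq p' (fun s => ?_)
    have a1 := h1 s
    have a2 := h2 s
    rw [abs_le]
    constructor <;> linarith
  · intro s
    have := abs_le.1 (hcen F hF s)
    linarith [this.1]
  · intro s
    have := abs_le.1 (hcen F hF s)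
    have h2 := ev_le_one F.2 s
    linarith [this.2]
  · intro s
    have := abs_le.1 (hcen F' hF' s)
    linarith [this.1]
  · intro s
    have := abs_le.1 (hcen F' hF' s)
    have h2 := ev_le_one F'.2 s
    linarith [this.2]



/-- MODULE D. -/
theorem contra : ContraStmt := by
  classical
  intro m l hl k hk Cl K hcard hdiam hfin hid hpatch
  refine patch_contradiction l hl Cl K hdiam hfin hid (fun ρ => ?_)
  obtain ⟨t, C0, lab, hC0, hC0a, hinj⟩ := hpatch ρ
  have hne : C0.Nonempty := by
    rw [← Finset.card_pos, hcard C0 hC0]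
    omega
  obtain ⟨F0, hF0⟩ := hne
  have k0 : 0 < k := by omega
  have k1 : 1 < k := by omega
  refine ⟨t, C0, F0, hC0, hC0a, hF0, fun F => (if lab F = ⟨0, k0⟩ then 1 else 0)
    - (if lab F = ⟨1, k1⟩ then 1 else 0), ?_⟩
  intro C hC hCa hnear
  have hneC : C.Nonempty := by
    rw [← Finset.card_pos, hcard C hC]
    omega
  obtain ⟨G, hG⟩ := hneC
  have hI := hinj C hC hCa ⟨G, hG, F0, hF0, hnear G hG⟩
  have hsurj : ∀ b : Fin k, ∃ F ∈ C, lab F = b := by
    intro b
    have h1 : (C.image lab).card = Fintype.card (Fin k) := by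
      rw [Finset.card_image_of_injOn hI, hcard C hC, Fintype.card_fin]
    have h2 : C.image lab = Finset.univ := Finset.eq_univ_of_card _ h1
    have h3 : b ∈ C.image lab := by rw [h2]; exact Finset.mem_univ b
    rw [Finset.mem_image] at h3
    exact h3
  have hsum : ∀ b : Fin k, ∑ F ∈ C, (if lab F = b then (1 : ℚ) else 0) = 1 := by
    intro b
    obtain ⟨F, hF, hb⟩ := hsurj b
    rw [Finset.sum_eq_single F]
    · rw [if_pos hb]
    · intro F' hF' hne
      rw [if_neg]
      intro h
      exact hne (hI hF' hF (h.trans hb.symm))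
    · intro h
      exact absurd hF h
  refine ⟨?_, ?_⟩
  · rw [Finset.sum_sub_distrib, hsum, hsum, sub_self]
  · obtain ⟨F, hF, hb⟩ := hsurj ⟨0, k0⟩
    obtain ⟨F', hF', hb'⟩ := hsurj ⟨1, k1⟩
    refine ⟨F, hF, F', hF', ?_⟩
    have hn : (⟨0, k0⟩ : Fin k) ≠ ⟨1, k1⟩ := by
      intro h
      have := congrArg Fin.val h
      simp at this
    simp only
    rw [hb, hb', if_pos rfl, if_neg hn, if_neg hn.symm, if_pos rfl]
    norm_num

end Pool.Agent.PSC.H11
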