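import Pool.Agent.Helper95_PSC.Stmts

set_option autoImplicit false

namespace Pool.Agent.PSC.H11

open Finset Pool.Agent.PSC

/-- The linear map of a matrix over the fraction field. -/
noncomputable def mapF {A F : Type} [CommRing A] [Field F] [Algebra A F] {P T : Type} [Fintype P]
    (ρ : P → T → A) : (P → F) →ₗ[F] (T → F) where
  toFun y τ := ∑ p, y p * algebraMap A F (ρ p τ)
  map_add' y z := by
    funext τ
    simp only [Pi.add_apply]
    rw [← Finset.sum_add_distrib]
    exact Finset.sum_congr rfl (fun p _ => by ring)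
  map_smul' c y := by
    funext τ
    simp only [Pi.smul_apply, smul_eq_mul, RingHom.id_apply]
    rw [Finset.mul_sum]
    exact Finset.sum_congr rfl (fun p _ => by ring)

theorem linAlg : LinAlgStmt := by
  classical
  intro A _ _ T P K _ _ _ ρ g hrel
  let F := FractionRing A
  let Φ : (P → F) →ₗ[F] (T → F) := mapF ρ
  let Ψ : (P → F) →ₗ[F] (K → F) := mapF g
  have hinj : Function.Injective (algebraMap A F) := IsFractionRing.injective A F
  have hker : LinearMap.ker Φ ≤ LinearMap.ker Ψ := by
    intro y hy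
    rw [LinearMap.mem_ker] at hy ⊢
    obtain ⟨b, hb⟩ := IsLocalization.exist_integer_multiples_of_finite (nonZeroDivisors A) y
    choose y' hy' using hb
    have hb0 : algebraMap A F (b : A) ≠ 0 := by
      have := nonZeroDivisors.ne_zero b.2
      intro h
      exact this (hinj (by rw [h, map_zero]))
    have e1 : ∀ p, algebraMap A F (y' p) = algebraMap A F (b : A) * y p := by
      intro p
      rw [hy' p, Algebra.smul_def]
    have e2 : ∀ τ, ∑ p, y' p * ρ p τ = 0 := by
      intro τ
      apply hinj
      rw [map_zero, map_sum]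
      have h1 := congrFun hy τ
      have h2 : ∑ p, y p * algebraMap A F (ρ p τ) = 0 := h1
      calc ∑ p, algebraMap A F (y' p * ρ p τ)
          = ∑ p, algebraMap A F (b : A) * (y p * algebraMap A F (ρ p τ)) := by
            refine Finset.sum_congr rfl (fun p _ => ?_)
            rw [map_mul, e1 p]
            ring
        _ = algebraMap A F (b : A) * ∑ p, y p * algebraMap A F (ρ p τ) := by
            rw [Finset.mul_sum]
        _ = 0 := by rw [h2, mul_zero]
    have e3 := hrel y' e2
    funext κ
    have e4 : algebraMap A F (b : A) * ∑ p, y p * algebraMap A F (g p κ) = 0 := by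
      rw [Finset.mul_sum]
      calc ∑ p, algebraMap A F (b : A) * (y p * algebraMap A F (g p κ))
          = ∑ p, algebraMap A F (y' p * g p κ) := by
            refine Finset.sum_congr rfl (fun p _ => ?_)
            rw [map_mul, e1 p]
            ring
        _ = algebraMap A F (∑ p, y' p * g p κ) := by rw [map_sum]
        _ = 0 := by rw [e3 κ, map_zero]
    exact (mul_eq_zero.1 e4).resolve_left hb0
  -- the factorisation
  obtain ⟨Λ, hΛ⟩ : ∃ Λ : (T → F) →ₗ[F] (K → F), Λ.comp Φ = Ψ := by
    let Ψ1 : LinearMap.range Φ →ₗ[F] (K → F) :=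
      ((LinearMap.ker Φ).liftQ Ψ hker).comp (Φ.quotKerEquivRange.symm : _ →ₗ[F] _)
    obtain ⟨Λ, h⟩ := LinearMap.exists_extend Ψ1
    refine ⟨Λ, ?_⟩
    refine LinearMap.ext (fun y => ?_)
    have h1 : Λ (Φ y) = Ψ1 ⟨Φ y, LinearMap.mem_range_self Φ y⟩ := by
      rw [← h]
      rfl
    rw [LinearMap.comp_apply, h1]
    have h2 : Φ.quotKerEquivRange ((LinearMap.ker Φ).mkQ y) =
        ⟨Φ y, LinearMap.mem_range_self Φ y⟩ := by
      apply Subtype.ext
      rfl
    change (LinearMap.ker Φ).liftQ Ψ hker
      (Φ.quotKerEquivRange.symm ⟨Φ y, LinearMap.mem_range_self Φ y⟩) = Ψ y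
    rw [← h2, LinearEquiv.symm_apply_apply]
    rfl
  obtain ⟨b, hb⟩ := IsLocalization.exist_integer_multiples_of_finite (nonZeroDivisors A)
    (fun x : T × K => Λ (Pi.single x.1 1) x.2)
  choose L' hL' using hb
  refine ⟨(b : A), nonZeroDivisors.ne_zero b.2, fun τ κ => L' (τ, κ), ?_⟩
  intro p κ
  apply hinj
  have e1 : ∀ τ, algebraMap A F (L' (τ, κ)) = algebraMap A F (b : A) * Λ (Pi.single τ 1) κ := by
    intro τ
    rw [hL' (τ, κ), Algebra.smul_def]
  have e2 : Φ (Pi.single p 1) = ∑ τ, algebraMap A F (ρ p τ) • (Pi.single τ 1 : T → F) := by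
    funext τ
    have : Φ (Pi.single p 1) τ = ∑ p', (Pi.single p (1 : F) : P → F) p' * algebraMap A F (ρ p' τ) :=
      rfl
    rw [this, Finset.sum_eq_single p]
    · rw [Pi.single_eq_same, one_mul, Finset.sum_apply, Finset.sum_eq_single τ]
      · simp
      · intro τ' _ hne
        rw [Pi.smul_apply, Pi.single_eq_of_ne (fun h => hne h.symm), smul_zero]
      · intro h
        exact absurd (Finset.mem_univ τ) h
    · intro p' _ hne
      rw [Pi.single_eq_of_ne hne, zero_mul]
    · intro h
      exact absurd (Finset.mem_univ p) h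
  have e3 : Ψ (Pi.single p 1) κ = algebraMap A F (g p κ) := by
    have : Ψ (Pi.single p 1) κ = ∑ p', (Pi.single p (1 : F) : P → F) p' * algebraMap A F (g p' κ) :=
      rfl
    rw [this, Finset.sum_eq_single p]
    · rw [Pi.single_eq_same, one_mul]
    · intro p' _ hne
      rw [Pi.single_eq_of_ne hne, zero_mul]
    · intro h
      exact absurd (Finset.mem_univ p) h
  have e4 : Ψ (Pi.single p 1) = ∑ τ, algebraMap A F (ρ p τ) • Λ (Pi.single τ 1 : T → F) := by
    rw [← hΛ, LinearMap.comp_apply, e2, map_sum]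
    exact Finset.sum_congr rfl (fun τ _ => by rw [map_smul])
  rw [map_mul, ← e3, e4, Finset.sum_apply, map_sum, Finset.mul_sum]
  refine Finset.sum_congr rfl (fun τ _ => ?_)
  rw [map_mul, e1, Pi.smul_apply, smul_eq_mul]
  ring

end Pool.Agent.PSC.H11
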